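import Mathlib

/-!
# No odd torsion in the first homology of the components of the space of long knots

Budney's description of the homotopy types of the components `K(f)` of the space of long knots in
`ℝ³` (R. Budney, *Little cubes and long knots*, Topology 46 (2007); *Topology of knot spaces in
dimension 3*, Proc. LMS 101 (2010)), following the JSJ tree of the complement of `f`:

* `K(unknot) ≃ *`, `K(torus knot) ≃ S¹`, `K(hyperbolic knot) ≃ S¹ × S¹` (Hatcher);
* `K(cable of g) ≃ S¹ × K(g)`;
* `K(f₁ # ⋯ # f_n) ≃ Conf(ℝ², n) ×_{Σ_f} ∏ K(f_i)` for prime `f_i`, `Σ_f` the Young subgroup that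
  preserves the isotopy classes of the `f_i`;
* if the root of the JSJ tree is a hyperbolic link complement (with strands `1, …, n` and
  companions `f_i`): `K(f) ≃ S¹ × (SO₂ ×_A ∏ K(f_i))`, where the finite cyclic group `A ⊂ SO₂` of
  symmetries of the link acts on `∏ K(f_i)` by a signed permutation: it permutes the factors, and
  a symmetry that preserves a strand acts on its factor by the identity or by the involution of
  `K(f_i)` (inversion of knots), according to whether it preserves the orientation of the strand.

On fundamental groups this says that `π₁ K(f)` belongs to the class `KnotSpaceGroup` defined below.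
We show that the abelianisation of a group of this class has no element of odd order `> 1`.
-/

set_option autoImplicit false

namespace Pool.Agent.Results.MP_9ed307_gt.NoOddTorsion

open Finset

/-- The action of a group `M` on `∏_x (H x) ^ (m x + 1)` through the Young group
`∏_x Perm (Fin (m x + 1))`: the factors of the same kind `x` are permuted. -/
def youngAction {C : Type} (m : C → ℕ) (H : C → Type) [∀ x, Group (H x)] {M : Type} [Group M]
    (p : M →* ∀ x, Equiv.Perm (Fin (m x + 1))) : M →* MulAut (∀ x, Fin (m x + 1) → H x) where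
  toFun μ :=
    { toFun := fun g x i => g x (((p μ) x)⁻¹ i)
      invFun := fun g x i => g x (((p μ) x) i)
      left_inv := fun g => by funext x i; simp
      right_inv := fun g => by funext x i; simp
      map_mul' := fun g h => rfl }
  map_one' := by ext g x i; simp
  map_mul' μ ν := by ext g x i; simp [mul_inv_rev]

/-- The smallest class of groups which contains the fundamental groups of the components of the
space of long knots, as given by Budney's theorem. -/
inductive KnotSpaceGroup : (G : Type) → [Group G] → Prop
  /-- the class is closed under isomorphism -/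
  | iso {G H : Type} [Group G] [Group H] (e : G ≃* H) : KnotSpaceGroup G → KnotSpaceGroup H
  /-- the unknot: `K ≃ *` -/
  | unknot : KnotSpaceGroup PUnit
  /-- torus knots: `K ≃ S¹` -/
  | torus : KnotSpaceGroup (Multiplicative ℤ)
  /-- hyperbolic knots: `K ≃ S¹ × S¹` -/
  | hyperbolic : KnotSpaceGroup (Multiplicative ℤ × Multiplicative ℤ)
  /-- cables of `g`: `K ≃ S¹ × K(g)` -/
  | cable {G : Type} [Group G] : KnotSpaceGroup G → KnotSpaceGroup (Multiplicative ℤ × G)
  /-- connected sums of `m x + 1` copies of a prime knot of the kind `x`, for the elements `x` of a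
  finite set `C`: `K ≃ Conf(ℝ², n) ×_{Σ_f} ∏ K(f_i)`, with fundamental group
  `(∏_x (H x) ^ (m x + 1)) ⋊ M`. Here `M` is the mixed braid group, the inverse image of the Young
  group `∏_x Perm (Fin (m x + 1))` in the braid group; we allow any group `M` with a surjection on
  the Young group whose abelianisation is torsion-free. -/
  | sum {C : Type} [Fintype C] [DecidableEq C] (m : C → ℕ) (H : C → Type) [∀ x, Group (H x)]
      {M : Type} [Group M] (p : M →* ∀ x, Equiv.Perm (Fin (m x + 1)))
      (hp : Function.Surjective p)
      (hM : ∀ (k : ℕ) (y : Abelianization M), 0 < k → y ^ k = 1 → y = 1)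
      (h : ∀ x, KnotSpaceGroup (H x)) :
      KnotSpaceGroup ((∀ x, Fin (m x + 1) → H x) ⋊[youngAction m H p] M)
  /-- hyperbolic satellites: `K ≃ S¹ × (SO₂ ×_A ∏ K(f_i))`. The second factor is the mapping torus
  of the generator of `A`, which permutes the factors `K(f_i)` by `σ`, and whose powers which
  preserve a factor act on it by the identity or by an involution: on the fundamental group
  `∏ G i`, an automorphism `α` which maps the factor `G i` to the factor `G (σ i)`, and such that
  for `σ ^ k i = i` the square of the automorphism of `G i` given by `α ^ k` is inner. -/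
  | satellite {n : ℕ} (G : Fin n → Type) [∀ i, Group (G i)] (σ : Equiv.Perm (Fin n))
      (α : MulAut (∀ i, G i))
      (hperm : ∀ (i : Fin n) (g : G i), ∃ h : G (σ i),
        α (Pi.mulSingle i g) = Pi.mulSingle (σ i) h)
      (hret : ∀ (i : Fin n) (k : ℕ), (σ ^ k) i = i → ∃ c : G i, ∀ g : G i,
        (α ^ (2 * k)) (Pi.mulSingle i g) = Pi.mulSingle i (c * g * c⁻¹))
      (h : ∀ i, KnotSpaceGroup (G i)) :
      KnotSpaceGroup (Multiplicative ℤ ×
        ((∀ i, G i) ⋊[zpowersHom (MulAut (∀ i, G i)) α] Multiplicative ℤ))

/-- No element of odd order `> 1`. -/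
def NOT (A : Type) [CommGroup A] : Prop := ∀ (k : ℕ) (x : A), Odd k → x ^ k = 1 → x = 1

theorem NOT.of_injective {A B : Type} [CommGroup A] [CommGroup B] (f : A →* B)
    (hf : Function.Injective f) (h : NOT B) : NOT A := by
  intro k x hk hx
  apply hf
  rw [map_one]
  exact h k (f x) hk (by rw [← map_pow, hx, map_one])

theorem NOT.of_torsionfree {A : Type} [CommGroup A]
    (h : ∀ (k : ℕ) (y : A), 0 < k → y ^ k = 1 → y = 1) : NOT A :=
  fun k x hk hx => h k x hk.pos hx

theorem not_int : NOT (Abelianization (Multiplicative ℤ)) := by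
  have h1 : NOT (Multiplicative ℤ) := by
    intro k x hk hx
    have : (k : ℤ) * Multiplicative.toAdd x = 0 := by
      have := congrArg Multiplicative.toAdd hx
      simpa using this
    rcases mul_eq_zero.1 this with h | h
    · exact absurd h (by have := hk.pos; positivity)
    · exact h
  exact NOT.of_injective (Abelianization.equivOfComm (H := Multiplicative ℤ)).symm.toMonoidHom
    (Abelianization.equivOfComm (H := Multiplicative ℤ)).symm.injective h1

theorem not_subsingleton {A : Type} [CommGroup A] [Subsingleton A] : NOT A :=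
  fun _ _ _ _ => Subsingleton.elim _ _

/-- an element killed by `2` and by an odd number is trivial -/
theorem eq_one_of_sq {A : Type} [CommGroup A] {k : ℕ} {x : A} (hk : Odd k) (hx : x ^ k = 1)
    (h2 : x ^ 2 = 1) : x = 1 := by
  obtain ⟨j, rfl⟩ := hk
  rw [pow_succ, pow_mul, h2, one_pow, one_mul] at hx
  exact hx

theorem NOT.prod {G H : Type} [Group G] [Group H] (hG : NOT (Abelianization G))
    (hH : NOT (Abelianization H)) : NOT (Abelianization (G × H)) := by
  intro k x hk hx
  have h1 : Abelianization.map (MonoidHom.fst G H) x = 1 :=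
    hG k _ hk (by rw [← map_pow, hx, map_one])
  have h2 : Abelianization.map (MonoidHom.snd G H) x = 1 :=
    hH k _ hk (by rw [← map_pow, hx, map_one])
  have key : ∀ y : Abelianization (G × H), y =
      Abelianization.map (MonoidHom.inl G H) (Abelianization.map (MonoidHom.fst G H) y) *
      Abelianization.map (MonoidHom.inr G H) (Abelianization.map (MonoidHom.snd G H) y) := by
    intro y
    induction y using QuotientGroup.induction_on with
    | H g =>
      obtain ⟨a, b⟩ := g
      change Abelianization.of (a, b) = Abelianization.of (a, 1) * Abelianization.of (1, b)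
      rw [← map_mul]
      simp
  rw [key x, h1, h2, map_one, map_one, one_mul]

theorem NOT.pi {ι : Type} [Fintype ι] [DecidableEq ι] {G : ι → Type} [∀ i, Group (G i)]
    (h : ∀ i, NOT (Abelianization (G i))) : NOT (Abelianization (∀ i, G i)) := by
  intro k x hk hx
  have h1 : ∀ i, Abelianization.map (Pi.evalMonoidHom G i) x = 1 :=
    fun i => h i k _ hk (by rw [← map_pow, hx, map_one])
  let F : Abelianization (∀ i, G i) →* Abelianization (∀ i, G i) :=
    ∏ i, (Abelianization.map (MonoidHom.mulSingle G i)).comp
      (Abelianization.map (Pi.evalMonoidHom G i))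
  have key : F = MonoidHom.id _ := by
    apply Abelianization.hom_ext
    apply MonoidHom.pi_ext
    intro i g
    simp only [F, MonoidHom.comp_apply, MonoidHom.finsetProd_apply, MonoidHom.id_apply]
    rw [Finset.prod_eq_single i]
    · simp
    · intro j _ hj
      simp [Pi.mulSingle_eq_of_ne hj]
    · simp
  have : x = F x := by rw [key]; rfl
  rw [this]
  simp only [F, MonoidHom.finsetProd_apply, MonoidHom.comp_apply, h1, map_one,
    Finset.prod_const_one]

/-- Semidirect products. -/
theorem NOT.semidirect {N Q A : Type} [Group N] [Group Q] [CommGroup A] (φ : Q →* MulAut N)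
    (hQ : NOT (Abelianization Q)) (hA : NOT A) (T : N →* A)
    (hT : ∀ q n, T (φ q n) = T n) (U : A →* Abelianization (N ⋊[φ] Q))
    (hU : ∀ n, U (T n) = (Abelianization.of (SemidirectProduct.inl n)) ^ 2) :
    NOT (Abelianization (N ⋊[φ] Q)) := by
  intro k x hk hx
  induction x using QuotientGroup.induction_on with
  | H γ =>
    have h1 : Abelianization.map (SemidirectProduct.rightHom : N ⋊[φ] Q →* Q)
        (Abelianization.of γ) = 1 :=
      hQ k _ hk (by rw [← map_pow]; exact (congrArg _ hx).trans (map_one _))
    have h2 : (Abelianization.of γ : Abelianization (N ⋊[φ] Q)) =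
        Abelianization.of (SemidirectProduct.inl γ.left) := by
      conv_lhs => rw [← SemidirectProduct.inl_left_mul_inr_right γ]
      rw [map_mul]
      have : (Abelianization.of (SemidirectProduct.inr γ.right) : Abelianization (N ⋊[φ] Q)) =
          Abelianization.map (SemidirectProduct.inr : Q →* N ⋊[φ] Q)
            (Abelianization.map (SemidirectProduct.rightHom : N ⋊[φ] Q →* Q)
              (Abelianization.of γ)) := by
        simp
      rw [this, h1, map_one, mul_one]
    let T' : N ⋊[φ] Q →* A := SemidirectProduct.lift T 1 (by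
      intro q
      ext n
      simp [hT])
    have h3 : T γ.left = 1 := by
      apply hA k _ hk
      have : Abelianization.lift T' (Abelianization.of γ) = T γ.left := by
        rw [Abelianization.lift_apply_of]
        conv_lhs => rw [← SemidirectProduct.inl_left_mul_inr_right γ]
        simp only [T', map_mul, SemidirectProduct.lift_inl, SemidirectProduct.lift_inr,
          MonoidHom.one_apply, mul_one]
      rw [← this, ← map_pow]
      exact (congrArg _ hx).trans (map_one _)
    have h4 : (Abelianization.of γ : Abelianization (N ⋊[φ] Q)) ^ 2 = 1 := by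
      rw [h2, ← hU, h3, map_one]
    exact eq_one_of_sq hk hx h4

/-- In the abelianisation of a semidirect product, the elements `n` and `φ q n` agree. -/
theorem of_inl_aut {N Q : Type} [Group N] [Group Q] (φ : Q →* MulAut N) (q : Q) (n : N) :
    (Abelianization.of (SemidirectProduct.inl (φ q n)) : Abelianization (N ⋊[φ] Q)) =
      Abelianization.of (SemidirectProduct.inl n) := by
  rw [SemidirectProduct.inl_aut, map_mul, map_mul, mul_right_comm, ← map_mul, ← map_mul,
    ← map_mul SemidirectProduct.inr, mul_inv_cancel, map_one, one_mul]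

/-- Connected sums. -/
theorem NOT.sum {C : Type} [Fintype C] [DecidableEq C] (m : C → ℕ) (H : C → Type)
    [∀ x, Group (H x)] {M : Type} [Group M] (p : M →* ∀ x, Equiv.Perm (Fin (m x + 1)))
    (hp : Function.Surjective p)
    (hM : ∀ (k : ℕ) (y : Abelianization M), 0 < k → y ^ k = 1 → y = 1)
    (h : ∀ x, NOT (Abelianization (H x))) :
    NOT (Abelianization ((∀ x, Fin (m x + 1) → H x) ⋊[youngAction m H p] M)) := by
  let T : (∀ x, Fin (m x + 1) → H x) →* ∀ x, Abelianization (H x) :=
    MonoidHom.pi fun x => ∏ i : Fin (m x + 1),
      Abelianization.of.comp ((Pi.evalMonoidHom (fun _ : Fin (m x + 1) => H x) i).comp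
        (Pi.evalMonoidHom (fun x => Fin (m x + 1) → H x) x))
  have T_apply : ∀ (g : ∀ x, Fin (m x + 1) → H x) (x : C),
      T g x = ∏ i : Fin (m x + 1), Abelianization.of (g x i) := by
    intro g x
    change (∏ i : Fin (m x + 1),
      Abelianization.of.comp ((Pi.evalMonoidHom (fun _ : Fin (m x + 1) => H x) i).comp
        (Pi.evalMonoidHom (fun x => Fin (m x + 1) → H x) x))) g = _
    rw [MonoidHom.finsetProd_apply]
    rfl
  let V : ∀ x, Abelianization (H x) →*
      Abelianization ((∀ x, Fin (m x + 1) → H x) ⋊[youngAction m H p] M) := fun x =>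
    Abelianization.map ((SemidirectProduct.inl).comp
      ((MonoidHom.mulSingle (fun x => Fin (m x + 1) → H x) x).comp
        (MonoidHom.mulSingle (fun _ : Fin (m x + 1) => H x) 0)))
  let U : (∀ x, Abelianization (H x)) →*
      Abelianization ((∀ x, Fin (m x + 1) → H x) ⋊[youngAction m H p] M) :=
    ∏ x, ((V x) ^ 2).comp (Pi.evalMonoidHom (fun x => Abelianization (H x)) x)
  have hA : NOT (∀ x, Abelianization (H x)) := by
    intro k x hk hx
    funext y
    exact h y k (x y) hk (by simpa using congrFun hx y)
  refine NOT.semidirect (youngAction m H p) (NOT.of_torsionfree hM) hA T ?_ U ?_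
  · intro q n
    funext x
    rw [T_apply, T_apply]
    exact Fintype.prod_equiv ((p q x)⁻¹) _ _ (fun i => rfl)
  · intro n
    let W : (∀ x, Fin (m x + 1) → H x) →*
        Abelianization ((∀ x, Fin (m x + 1) → H x) ⋊[youngAction m H p] M) :=
      (powMonoidHom 2).comp (Abelianization.of.comp SemidirectProduct.inl)
    suffices hUW : U.comp T = W by
      exact DFunLike.congr_fun hUW n
    apply MonoidHom.pi_ext
    intro x f
    -- both sides are homomorphisms in `f`
    have : ((U.comp T).comp (MonoidHom.mulSingle (fun x => Fin (m x + 1) → H x) x)) =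
        (W.comp (MonoidHom.mulSingle (fun x => Fin (m x + 1) → H x) x)) := by
      apply MonoidHom.pi_ext
      intro i g
      simp only [MonoidHom.comp_apply, MonoidHom.mulSingle_apply]
      have hT : T (Pi.mulSingle x (Pi.mulSingle i g)) = Pi.mulSingle x (Abelianization.of g) := by
        funext y
        rw [T_apply]
        by_cases hy : y = x
        · subst hy
          rw [Pi.mulSingle_eq_same, Pi.mulSingle_eq_same, Finset.prod_eq_single i]
          · simp
          · intro j _ hj
            simp [Pi.mulSingle_eq_of_ne hj]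
          · simp
        · rw [Pi.mulSingle_eq_of_ne hy, Pi.mulSingle_eq_of_ne hy]
          simp
      rw [hT]
      simp only [U, W, MonoidHom.finsetProd_apply, MonoidHom.comp_apply, Pi.evalMonoidHom_apply,
        MonoidHom.pow_apply, powMonoidHom_apply]
      rw [Finset.prod_eq_single x]
      · rw [Pi.mulSingle_eq_same]
        congr 1
        simp only [V, Abelianization.map_of, MonoidHom.comp_apply, MonoidHom.mulSingle_apply]
        -- move the factor `0` to the factor `i`
        obtain ⟨q, hq⟩ := hp (Pi.mulSingle x (Equiv.swap 0 i))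
        rw [← of_inl_aut (youngAction m H p) q
          (Pi.mulSingle x (Pi.mulSingle (0 : Fin (m x + 1)) g))]
        congr 2
        funext y j
        change (Pi.mulSingle x (Pi.mulSingle (0 : Fin (m x + 1)) g) :
          ∀ x, Fin (m x + 1) → H x) y ((p q y)⁻¹ j) = _
        rw [hq]
        by_cases hy : y = x
        · subst hy
          simp only [Pi.mulSingle_eq_same, Equiv.swap_inv]
          by_cases hj : j = i
          · subst hj
            simp
          · rw [Pi.mulSingle_eq_of_ne hj, Pi.mulSingle_eq_of_ne]
            intro h0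
            apply hj
            have := congrArg (Equiv.swap 0 i) h0
            simpa using this
        · simp [Pi.mulSingle_eq_of_ne hy]
      · intro y _ hy
        rw [Pi.mulSingle_eq_of_ne hy, map_one, one_pow]
      · simp
    exact DFunLike.congr_fun this f

/-- Mapping tori of automorphisms which permute the factors, with return maps of order at most
two up to inner automorphisms. -/
theorem NOT.satellite {n : ℕ} (G : Fin n → Type) [∀ i, Group (G i)] (σ : Equiv.Perm (Fin n))
    (α : MulAut (∀ i, G i))
    (hperm : ∀ (i : Fin n) (g : G i), ∃ h : G (σ i), α (Pi.mulSingle i g) = Pi.mulSingle (σ i) h)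
    (hret : ∀ (i : Fin n) (k : ℕ), (σ ^ k) i = i → ∃ c : G i, ∀ g : G i,
      (α ^ (2 * k)) (Pi.mulSingle i g) = Pi.mulSingle i (c * g * c⁻¹))
    (h : ∀ i, NOT (Abelianization (G i))) :
    NOT (Abelianization ((∀ i, G i) ⋊[zpowersHom (MulAut (∀ i, G i)) α] Multiplicative ℤ)) := by
  classical
  -- the period of `i`
  let ℓ : Fin n → ℕ := fun i => Function.minimalPeriod σ i
  have hℓσ : ∀ i, ℓ (σ i) = ℓ i := fun i =>
    Function.minimalPeriod_apply (by
      rw [Function.mem_periodicPts]
      exact ⟨orderOf σ, orderOf_pos σ, by
        rw [Function.IsPeriodicPt, Function.IsFixedPt, ← Equiv.Perm.coe_pow, pow_orderOf_eq_one]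
        rfl⟩)
  have hℓ : ∀ i, (σ ^ (ℓ i)) i = i := fun i => by
    rw [Equiv.Perm.coe_pow]
    exact Function.iterate_minimalPeriod
  -- powers of `α` on a factor
  have hpow : ∀ (j : ℕ) (i : Fin n) (g : G i), ∃ h : G ((σ ^ j) i),
      (α ^ j) (Pi.mulSingle i g) = Pi.mulSingle ((σ ^ j) i) h := by
    intro j
    induction j with
    | zero => intro i g; exact ⟨g, rfl⟩
    | succ j ih =>
      intro i g
      obtain ⟨h1, e1⟩ := ih i g
      obtain ⟨h2, e2⟩ := hperm _ h1
      have e : (σ ^ (j + 1)) i = σ ((σ ^ j) i) := by
        rw [pow_succ']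
        rfl
      rw [e]
      refine ⟨h2, ?_⟩
      rw [pow_succ', MulAut.mul_apply, e1, e2]
  let T : (∀ i, G i) →* Abelianization (∀ i, G i) :=
    ∏ i, ∏ j ∈ range (2 * ℓ i), Abelianization.of.comp
      (((α ^ j).toMonoidHom).comp ((MonoidHom.mulSingle G i).comp (Pi.evalMonoidHom G i)))
  have T_single : ∀ (i : Fin n) (g : G i), T (Pi.mulSingle i g) =
      ∏ j ∈ range (2 * ℓ i), Abelianization.of ((α ^ j) (Pi.mulSingle i g)) := by
    intro i g
    simp only [T, MonoidHom.finsetProd_apply, MonoidHom.comp_apply, Pi.evalMonoidHom_apply,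
      MonoidHom.mulSingle_apply]
    rw [Finset.prod_eq_single i]
    · rw [Pi.mulSingle_eq_same]
      rfl
    · intro j _ hj
      rw [Pi.mulSingle_eq_of_ne hj]
      simp
    · simp
  have Tα : ∀ n, T (α n) = T n := by
    intro n
    suffices hh : T.comp α.toMonoidHom = T from DFunLike.congr_fun hh n
    apply MonoidHom.pi_ext
    intro i g
    obtain ⟨h1, e1⟩ := hperm i g
    change T (α (Pi.mulSingle i g)) = _
    rw [e1, T_single, T_single, hℓσ, ← e1]
    obtain ⟨c, hc⟩ := hret i (ℓ i) (hℓ i)
    have e2 : (Abelianization.of ((α ^ (2 * ℓ i)) (Pi.mulSingle i g)) :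
        Abelianization (∀ i, G i)) = Abelianization.of ((α ^ 0) (Pi.mulSingle i g)) := by
      rw [hc g, pow_zero, MulAut.one_apply, Pi.mulSingle_mul, Pi.mulSingle_mul, map_mul, map_mul,
        mul_right_comm, ← map_mul, ← map_mul, ← Pi.mulSingle_mul, ← Pi.mulSingle_mul]
      simp
    have e3 := Finset.prod_range_succ
      (fun j => (Abelianization.of ((α ^ j) (Pi.mulSingle i g)) : Abelianization (∀ i, G i)))
      (2 * ℓ i)
    have e4 := Finset.prod_range_succ'
      (fun j => (Abelianization.of ((α ^ j) (Pi.mulSingle i g)) : Abelianization (∀ i, G i)))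
      (2 * ℓ i)
    rw [e3] at e4
    simp only [e2] at e4
    have e5 := mul_right_cancel e4
    rw [e5]
    apply Finset.prod_congr rfl
    intro j _
    rw [pow_succ, MulAut.mul_apply]
  -- representatives of the cycles
  let r : Fin n → Fin n := fun i => (Quotient.mk (Equiv.Perm.SameCycle.setoid σ) i).out
  have hr : ∀ i, Equiv.Perm.SameCycle σ i (r i) := fun i =>
    (Quotient.exact (s := Equiv.Perm.SameCycle.setoid σ) (Quotient.out_eq _)).symm
  have hrσ : ∀ (j : ℕ) (i : Fin n), r ((σ ^ j) i) = r i := by
    intro j i
    simp only [r]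
    congr 1
    apply Quotient.sound (s := Equiv.Perm.SameCycle.setoid σ)
    exact (Equiv.Perm.SameCycle.symm ⟨j, by simp⟩)
  let A' := Abelianization ((∀ i, G i) ⋊[zpowersHom (MulAut (∀ i, G i)) α] Multiplicative ℤ)
  let U : Abelianization (∀ i, G i) →* A' :=
    Abelianization.lift (∏ i, if r i = i then
      Abelianization.of.comp ((SemidirectProduct.inl).comp
        ((MonoidHom.mulSingle G i).comp (Pi.evalMonoidHom G i))) else 1)
  have U_single : ∀ (i : Fin n) (g : G i), U (Abelianization.of (Pi.mulSingle i g)) =
      if r i = i then Abelianization.of (SemidirectProduct.inl (Pi.mulSingle i g)) else 1 := by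
    intro i g
    simp only [U, Abelianization.lift_apply_of, MonoidHom.finsetProd_apply]
    rw [Finset.prod_eq_single i]
    · split_ifs with hi
      · simp
      · rfl
    · intro j _ hj
      split_ifs with hi
      · simp [Pi.mulSingle_eq_of_ne hj]
      · rfl
    · simp
  have hα : ∀ (j : ℕ) (x : ∀ i, G i), (Abelianization.of (SemidirectProduct.inl ((α ^ j) x)) : A') =
      Abelianization.of (SemidirectProduct.inl x) := by
    intro j x
    have := of_inl_aut (zpowersHom (MulAut (∀ i, G i)) α) (Multiplicative.ofAdd (j : ℤ)) x
    simpa using this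
  apply NOT.semidirect (zpowersHom (MulAut (∀ i, G i)) α) not_int (NOT.pi h) T ?_ U ?_
  · intro q x
    have h1 : ∀ (j : ℕ) (x : ∀ i, G i), T ((α ^ j) x) = T x := by
      intro j
      induction j with
      | zero => intro x; rfl
      | succ j ih => intro x; rw [pow_succ, MulAut.mul_apply, ih, Tα]
    have h2 : ∀ (z : ℤ) (x : ∀ i, G i), T ((α ^ z) x) = T x := by
      intro z x
      obtain ⟨j, rfl | rfl⟩ := z.eq_nat_or_neg
      · rw [zpow_natCast, h1]
      · rw [← h1 j, zpow_neg, zpow_natCast, ← MulAut.mul_apply, mul_inv_cancel, MulAut.one_apply]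
    exact h2 _ x
  · intro x
    let W : (∀ i, G i) →* A' :=
      (powMonoidHom 2).comp (Abelianization.of.comp SemidirectProduct.inl)
    suffices hUW : U.comp T = W from DFunLike.congr_fun hUW x
    apply MonoidHom.pi_ext
    intro i g
    change U (T (Pi.mulSingle i g)) =
      (Abelianization.of (SemidirectProduct.inl (Pi.mulSingle i g)) : A') ^ 2
    rw [T_single, map_prod]
    set y : A' := Abelianization.of (SemidirectProduct.inl (Pi.mulSingle i g)) with hy
    have h1 : ∀ j, U (Abelianization.of ((α ^ j) (Pi.mulSingle i g))) =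
        if (σ ^ j) i = r i then y else 1 := by
      intro j
      obtain ⟨h2, e2⟩ := hpow j i g
      rw [e2, U_single, hrσ, ← e2, hα]
      simp only [eq_comm, hy]
    simp only [h1]
    rw [two_mul, Finset.prod_range_add]
    have h3 : ∀ j, (σ ^ (ℓ i + j)) i = (σ ^ j) i := by
      intro j
      rw [add_comm, pow_add, Equiv.Perm.mul_apply, hℓ]
    simp only [h3]
    have hpos : 0 < ℓ i := Function.minimalPeriod_pos_of_mem_periodicPts (by
      rw [Function.mem_periodicPts]
      exact ⟨orderOf σ, orderOf_pos σ, by
        rw [Function.IsPeriodicPt, Function.IsFixedPt, ← Equiv.Perm.coe_pow, pow_orderOf_eq_one]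
        rfl⟩)
    have h4 : ∏ j ∈ range (ℓ i), (if (σ ^ j) i = r i then y else 1) = y := by
      obtain ⟨j0, hj0⟩ := (hr i).exists_pow_eq'
      have hj1 : (σ ^ (j0 % ℓ i)) i = r i := by
        rw [← hj0.2]
        have := Function.iterate_mod_minimalPeriod_eq (f := σ) (x := i) (n := j0)
        rw [Equiv.Perm.coe_pow, Equiv.Perm.coe_pow]
        exact this
      rw [Finset.prod_eq_single (j0 % ℓ i)]
      · rw [if_pos hj1]
      · intro j hj hne
        rw [if_neg]
        intro hj2
        apply hne
        have e : (σ^[j]) i = (σ^[j0 % ℓ i]) i := by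
          rw [← Equiv.Perm.coe_pow, ← Equiv.Perm.coe_pow, hj2, hj1]
        exact (Function.iterate_eq_iterate_iff_of_lt_minimalPeriod (Finset.mem_range.1 hj)
          (Nat.mod_lt _ hpos)).1 e
      · intro hn
        exact absurd (Finset.mem_range.2 (Nat.mod_lt _ hpos)) hn
    rw [h4, pow_two]

/-- No element of odd order in the abelianisation of a group of the class. -/
theorem not_of_knotSpaceGroup (G : Type) [Group G] (h : KnotSpaceGroup G) :
    NOT (Abelianization G) := by
  induction h with
  | iso e _ ih =>
    exact NOT.of_injective (e.symm.abelianizationCongr).toMonoidHom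
      (e.symm.abelianizationCongr).injective ih
  | unknot =>
    have : Subsingleton (Abelianization PUnit) :=
      (QuotientGroup.mk_surjective (s := commutator PUnit)).subsingleton
    exact not_subsingleton
  | torus => exact not_int
  | hyperbolic => exact NOT.prod not_int not_int
  | cable _ ih => exact NOT.prod not_int ih
  | sum m H p hp hM _ ih => exact NOT.sum m H p hp hM ih
  | satellite G σ α hperm hret _ ih => exact NOT.prod not_int (NOT.satellite G σ α hperm hret ih)

/-- In the abelianisation of a group of the class, every element of finite order has order a power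
of `2`. -/
theorem result (G : Type) [Group G] (h : KnotSpaceGroup G) (x : Abelianization G)
    (hx : IsOfFinOrder x) : ∃ r : ℕ, orderOf x = 2 ^ r := by
  obtain ⟨r, m, hm, hrm⟩ := Nat.exists_eq_two_pow_mul_odd (orderOf_pos_iff.2 hx).ne'
  refine ⟨r, ?_⟩
  have h1 : (x ^ (2 ^ r)) ^ m = 1 := by
    rw [← pow_mul, ← hrm, pow_orderOf_eq_one]
  have h2 := not_of_knotSpaceGroup G h m _ hm h1
  have h3 := orderOf_dvd_of_pow_eq_one h2
  exact Nat.dvd_antisymm h3 (hrm ▸ Dvd.intro _ rfl)

end Pool.Agent.Results.MP_9ed307_gt.NoOddTorsion
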